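import Mathlib
import Pool.Agent.Q4.Hall.Main

set_option autoImplicit false

/-!
# Hall's inequality for polynomial values of integral points near an irrational ray

`X = F(q, x₁, …, xₙ)` with `F` of even degree `D`, at integral points near the ray spanned by
`(1, θ₁, …, θₙ)`, for algebraic numbers `θᵢ`, and `Y` an arbitrary integer. Hall's inequality holds
for all these `(X, Y)`, with the exponent `1/2 + 1/D - ε` in place of `1/2 - ε`.
-/

namespace Pool.Agent.Results.MP_e734ed_nt.AbscissaeNearRays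

open MvPolynomial

/-- the point `(q, x₁, …, xₙ)`; the variable `none` is the one of `q` -/
def point {n : ℕ} (q : ℕ) (x : Fin n → ℤ) : Option (Fin n) → ℤ := fun o => o.elim (q : ℤ) x

/-- the integral points `(q, x₁, …, xₙ)` near the ray spanned by `(1, θ₁, …, θₙ)`: `q = u w` where `u`
is composed of primes of `S` and `w ≤ q ^ η`, and `|θₛ q - xₛ| ≤ q ^ η` for all `s` -/
def NearRay {n : ℕ} (S : Finset ℕ) (θ : Fin n → ℝ) (η : ℝ) (q : ℕ) (x : Fin n → ℤ) : Prop :=
  (∃ u w : ℕ, q = u * w ∧ u.primeFactors ⊆ S ∧ (w : ℝ) ≤ (q : ℝ) ^ η) ∧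
  ∀ s, |θ s * q - x s| ≤ (q : ℝ) ^ η

/-- the value at `(1, θ)` of the homogeneous part of degree `m` -/
noncomputable def atInfinity {n : ℕ} (θ : Fin n → ℝ) (m : ℕ) (F : MvPolynomial (Option (Fin n)) ℤ) : ℝ :=
  aeval (fun o : Option (Fin n) => (o.elim 1 θ : ℝ)) (homogeneousComponent m F)

/-- Let `1, θ₁, …, θₙ` be real algebraic numbers, linearly independent over `ℚ`, and `S` a finite set
of primes. Let `F ∈ ℤ[X₀, …, Xₙ]` have degree at most `D`, where `D > 0` is even, and suppose that the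
homogeneous part of degree `D` of `F` does not vanish at `(1, θ)`. For every `ε > 0` there are `η > 0`
and `N` such that for all integral points `x = (q, x₁, …, xₙ)` near the ray with `q ≥ N` and all
integers `Y` with `Y² ≠ X³`, `X = F(x)`: `|Y² - X³| > |X| ^ (1/2 + 1/D - ε)`. -/
theorem result (n : ℕ) (θ : Fin n → ℝ) (halg : ∀ s, IsAlgebraic ℚ (θ s))
    (hind : LinearIndependent ℚ (fun o : Option (Fin n) => (o.elim 1 θ : ℝ))) (S : Finset ℕ)
    (F : MvPolynomial (Option (Fin n)) ℤ) (D : ℕ) (hD : 0 < D) (hD2 : Even D)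
    (hF : F.totalDegree ≤ D) (htop : atInfinity θ D F ≠ 0) (ε : ℝ) (hε : 0 < ε) :
    ∃ (η : ℝ) (N : ℕ), 0 < η ∧ ∀ q ≥ N, ∀ x, NearRay S θ η q x → ∀ Y : ℤ,
      Y ^ 2 ≠ (eval (point q x) F) ^ 3 →
      |((eval (point q x) F : ℤ) : ℝ)| ^ (1 / 2 + 1 / (D : ℝ) - ε)
        < |((Y ^ 2 - (eval (point q x) F) ^ 3 : ℤ) : ℝ)| := by
  classical
  have hf : ∀ x : ℕ, x.primeFactors ⊆ S → x.primeFactors ⊆ S.filter Nat.Prime := fun x hx p hp =>
    Finset.mem_filter.2 ⟨hx hp, Nat.prime_of_mem_primeFactors hp⟩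
  obtain ⟨k, hk⟩ := hD2
  have hk0 : 0 < k := by omega
  have hDr : (0 : ℝ) < D := by exact_mod_cast hD
  obtain ⟨η, N, hη, h⟩ := Pool.Agent.Q4.Hall.hall_main (S.filter Nat.Prime)
    (fun p hp => (Finset.mem_filter.1 hp).2) halg hind hF hD htop (a := 3) (b := 2) (E := 3 * k)
    (by norm_num) (by norm_num) (by omega) (by omega) (1 / 2 + 1 / (D : ℝ) - ε) (by
      have h1 : (D : ℝ) = 2 * k := by rw [hk]; push_cast; ring
      have h2 : (1 / 2 + 1 / (D : ℝ) - ε) * D = D / 2 + 1 - ε * D := by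
        field_simp
      rw [h2]
      push_cast
      have h3 : 0 < ε * D := by positivity
      rw [h1] at h3 ⊢
      linarith)
  refine ⟨η, N, hη, fun q hq x hx Y hY => ?_⟩
  obtain ⟨u, w, h1, h2, h3⟩ := hx.1
  have h4 := h q hq x ⟨⟨u, w, h1, hf _ h2, h3⟩, hx.2⟩ Y hY
  push_cast
  exact h4

end Pool.Agent.Results.MP_e734ed_nt.AbscissaeNearRays
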