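import Mathlib
import Pool.Agent.Q4.Hyp.RegMainO

set_option autoImplicit false

/-!
# Hall's inequality where a regular function is a polynomial value at a convergent

All integral points `(X, Y)` with `Y² ≠ X³` at which the function `A(X) + B(X) Y` (for fixed
`A, B ∈ ℤ[X]`) takes a value `F(q, p)` of a polynomial `F`, where `p / q` is a convergent, or a nearly
optimal approximation, of an algebraic number of degree `r ≥ 3`.

The proof: if `Y² - X³` is small, then `Y / X` is close to a root `ρ` of the equation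
`A(ρ²) + B(ρ²) ρ³ = F(q, p)`, and `X`, `Y` are close to `ρ²`, `ρ³`; the subspace theorem shows that
`X` and `Y` are values of polynomials at `(q, p)`; then Davenport's inequality for polynomials and a
lower bound for the values of polynomials at these points.
-/

namespace Pool.Agent.Results.MP_e734ed_nt.FunctionsAtConvergents

open MvPolynomial

/-- the value `F(q, p)` -/
noncomputable def value (F : MvPolynomial (Fin 2) ℤ) (q : ℕ) (p : ℤ) : ℤ :=
  eval (fun i => if i = 0 then (q : ℤ) else p) F

/-- the value at `(1, ξ)` of the homogeneous part of degree `m` -/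
noncomputable def atInfinity (ξ : ℝ) (m : ℕ) (F : MvPolynomial (Fin 2) ℤ) : ℝ :=
  aeval (fun i : Fin 2 => (if i = 0 then (1 : ℝ) else ξ)) (homogeneousComponent m F)

/-- the change of names of the variables -/
def nm : Fin 2 → Option Unit := fun i => if i = 0 then none else some ()

lemma nm_inj : Function.Injective nm := by
  intro i j h
  fin_cases i <;> fin_cases j <;> simp_all [nm]

lemma value_eq (F : MvPolynomial (Fin 2) ℤ) (q : ℕ) (x : Unit → ℤ) :
    eval (Pool.Agent.Q4.Tube.px q x) (rename nm F) = value F q (x ()) := by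
  unfold value
  rw [eval_rename]
  congr 1
  congr 1
  funext i
  fin_cases i <;> simp [nm, Pool.Agent.Q4.Tube.px]

lemma top_eq (F : MvPolynomial (Fin 2) ℤ) (m : ℕ) (θ : Unit → ℝ) :
    Pool.Agent.Q4.Cov.topv m (rename nm F) θ = atInfinity (θ ()) m F := by
  unfold Pool.Agent.Q4.Cov.topv atInfinity
  have h1 : homogeneousComponent m (rename nm F) = rename nm (homogeneousComponent m F) := by
    have h2 : F = ∑ i ∈ Finset.range (F.totalDegree + 1), homogeneousComponent i F :=
      (sum_homogeneousComponent F).symm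
    conv_lhs => rw [h2]
    rw [map_sum, map_sum]
    by_cases hm : m ∈ Finset.range (F.totalDegree + 1)
    · rw [Finset.sum_eq_single m]
      · rw [homogeneousComponent_of_mem ((homogeneousComponent_isHomogeneous m F).rename_isHomogeneous
          (f := nm)), if_pos rfl]
      · intro i _ hi
        rw [homogeneousComponent_of_mem ((homogeneousComponent_isHomogeneous i F).rename_isHomogeneous
          (f := nm)), if_neg (Ne.symm hi)]
      · intro h
        exact absurd hm h
    · rw [Finset.sum_eq_zero, homogeneousComponent_eq_zero, map_zero]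
      · rw [Finset.mem_range] at hm
        omega
      · intro i hi
        rw [homogeneousComponent_of_mem ((homogeneousComponent_isHomogeneous i F).rename_isHomogeneous
          (f := nm)), if_neg]
        rintro rfl
        exact hm hi
  rw [h1, aeval_rename]
  congr 1
  congr 1
  funext i
  fin_cases i <;> simp [nm]

/-- the restriction `A(T²) + B(T²) T³` of the function `A(X) + B(X) Y` to the cuspidal cubic
`(T², T³)` -/
noncomputable def onCusp (A B : Polynomial ℤ) : Polynomial ℤ :=
  A.comp (Polynomial.X ^ 2) + B.comp (Polynomial.X ^ 2) * Polynomial.X ^ 3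

/-- Let `A, B ∈ ℤ[X]`, let `w > 0` be the degree of `A(T²) + B(T²) T³`, and let `j > 0`. Let `ξ` be a
real algebraic number of degree `r ≥ 3`, and let `F ∈ ℤ[U, V]` have degree at most `w j`, with a
homogeneous part of degree `w j` that does not vanish at `(1, ξ)`. For
`0 < e < (1 - 2/r)(1/2 + 1/(2j))` there are `η > 0` and `N` such that for all integers `q ≥ N` and `p`
with `|ξ - p/q| ≤ q ^ (η - 2)` and all integers `X`, `Y` with `A(X) + B(X) Y = F(q, p)` and `Y² ≠ X³`:
`|Y² - X³| > |X| ^ e`. -/
theorem result (A B : Polynomial ℤ) (hw : 0 < (onCusp A B).natDegree) (ξ : ℝ) (hξ : IsAlgebraic ℚ ξ)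
    (h3 : 3 ≤ (minpoly ℚ ξ).natDegree) (F : MvPolynomial (Fin 2) ℤ) (j : ℕ) (hj : 0 < j)
    (hF : F.totalDegree ≤ (onCusp A B).natDegree * j)
    (htop : atInfinity ξ ((onCusp A B).natDegree * j) F ≠ 0) (e : ℝ) (he : 0 < e)
    (he' : e < (1 - 2 / ((minpoly ℚ ξ).natDegree : ℝ)) * (1 / 2 + 1 / (2 * (j : ℝ)))) :
    ∃ (η : ℝ) (N : ℕ), 0 < η ∧ ∀ q ≥ N, ∀ p : ℤ, |ξ - p / q| ≤ (q : ℝ) ^ (η - 2) → ∀ X Y : ℤ,
      A.eval X + B.eval X * Y = value F q p → Y ^ 2 ≠ X ^ 3 →
      |(X : ℝ)| ^ e < |((Y ^ 2 - X ^ 3 : ℤ) : ℝ)| := by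
  classical
  have hc : Pool.Agent.Q4.Hyp.cusp A B = onCusp A B := by
    unfold Pool.Agent.Q4.Hyp.cusp onCusp
    rw [Polynomial.expand_eq_comp_X_pow, Polynomial.expand_eq_comp_X_pow, mul_comm]
  obtain ⟨η, N, hη, h⟩ := Pool.Agent.Q4.Hyp.reg_mainO (fun _ => ξ) hξ h3 (A := A) (B := B)
    (F := rename nm F) (j := j) (by rw [hc]; exact hw)
    (by rw [hc]; exact (totalDegree_rename_le _ _).trans hF) hj
    (by rw [hc, top_eq]; exact htop) he he'
  refine ⟨η, max N 1, hη, fun q hq p hp X Y hAB hne => ?_⟩
  have hq1 : 1 ≤ q := (le_max_right _ _).trans hq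
  have hqp : (0 : ℝ) < q := by exact_mod_cast hq1
  have h1 := h q ((le_max_left _ _).trans hq) (fun _ => p) (by
    have h2 : ξ * q - p = q * (ξ - p / q) := by field_simp
    have h3' : (q : ℝ) ^ (η - 2) = (q : ℝ) ^ η / q ^ 2 := by
      rw [Real.rpow_sub hqp]
      norm_num
    rw [h3'] at hp
    change (q : ℝ) * |ξ * q - (p : ℝ)| ≤ _
    rw [h2, abs_mul, abs_of_pos hqp]
    calc (q : ℝ) * (q * |ξ - p / q|) ≤ q * (q * ((q : ℝ) ^ η / q ^ 2)) := by gcongr
      _ = (q : ℝ) ^ η := by field_simp) X Y (by rw [value_eq]; exact hAB) hne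
  push_cast
  exact h1

end Pool.Agent.Results.MP_e734ed_nt.FunctionsAtConvergents
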