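import Pool.Agent.Q21.DW.Cnt
import Pool.Agent.Results.MP_e734ed_nt.WindowsWithoutExceptions

/-!
# Hall's inequality for the integers `x` given by the digits and the multiples of a real number

Let `0 ≤ δ ≤ 1/2` and `s = 1/3 - δ/6`. For almost every real number `α` and every constant `c`,
`|y² - x³| > c |x| ^ (1/2 - δ)` for all integers `y` with `y² ≠ x³` and ALL the integers `x`, `- x` that are written by
`k` consecutive digits of `α` after one of the first `g ^ (κ k)` places, `κ < 1 - s`, in every base `g`, if `k` is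
large. The exceptional set of `α` has Hausdorff dimension at most `(s + η) / (1 + η)` if only the first `η k` places
are used. The same for all integers `x` with `||x| - α v_k| ≤ w_k`, `α` outside a set of `d`-dimensional Hausdorff
measure zero, if `∑ v_k ^ t (w_k / v_k) ^ d` converges for some `t > s`. For `δ = 0`, `s = 1/3`, this is Hall's
original inequality with an arbitrarily large constant.
-/

set_option autoImplicit false

namespace Pool.Agent.Results.MP_e734ed_nt.RandomAbscissae

/-- `c |x| ^ (1/2 - δ) < |y² - x³|` for all integers `x`, `y` with `|x| = n` and `y² ≠ x³` -/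
def HallAt (δ : ℝ) (c n : ℕ) : Prop :=
  ∀ x y : ℤ, x.natAbs = n → y ^ 2 ≠ x ^ 3 →
    (c : ℝ) * |(x : ℝ)| ^ (1 / 2 - δ) < |(y : ℝ) ^ 2 - (x : ℝ) ^ 3|

/-- **Theorem.** Let `0 ≤ δ ≤ 1/2` and `s = 1/3 - δ/6`. In the sense of `RandomReals s` (digits and dilates of almost
all real numbers `α`, with Hausdorff dimensions), for all `c`: `|y² - x³| > c |x| ^ (1/2 - δ)` for all integers `x`,
`y` with `|x| = n` and `y² ≠ x³`. -/
theorem result (δ : ℝ) (h0 : 0 ≤ δ) (h1 : δ ≤ 1 / 2) :
    Pool.Agent.Q21.DW.RandomReals (1 / 3 - δ / 6) (HallAt δ) := by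
  refine Pool.Agent.Q21.DW.randomReals_of (B := fun c n => ¬ HallAt δ c n) (by linarith)
    (by linarith) (fun c => ?_) (fun c n _ h2 => not_not.1 h2)
  refine Pool.Agent.Q21.DW.ps_of
    (fun X : ℕ => {e | e ∈ WindowsWithoutExceptions.Exc c δ ∧ |((e.1 : ℤ) : ℝ)| ≤ (X : ℝ)})
    (fun e => e.1.natAbs) _ _ ?_ ?_
  · intro ε hε
    obtain ⟨K, hK⟩ := WindowsWithoutExceptions.count_x c δ h0 h1 ε hε
    exact ⟨K, fun X hX => hK X (by exact_mod_cast hX)⟩
  · intro n N hn hnN hB
    unfold HallAt at hB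
    push Not at hB
    obtain ⟨x, y, hx, hxy, hle⟩ := hB
    refine ⟨(x, y), ⟨⟨hxy, hle⟩, ?_⟩, hx⟩
    have h3 : |(x : ℝ)| = n := by rw [← hx, Nat.cast_natAbs, Int.cast_abs]
    show |(x : ℝ)| ≤ N
    rw [h3]
    exact_mod_cast hnN

end Pool.Agent.Results.MP_e734ed_nt.RandomAbscissae
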